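import Pool.Agent.Work.MP_8f87b2_h64.EOnly
import Pool.Agent.Work.MP_8f87b2_h2.Cnt

/-!
# The number of T-cycles outside the E pairs

At most one T-cycle of every family `Rd p = d` is outside the pairs; the family belongs to a T-cycle without part 1 of size
`d.1 + pkc d.2 ≤ k`.
-/

set_option autoImplicit false

namespace Pool.OddHC

open Finset Equiv BinaryTree Pool.OddHop Pool.Agent.Work.MP_8f87b2_co

variable {k : ℕ}

/-- the T-cycle without part 1 over a reduced T-cycle -/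
theorem exists_bare (d : RD) : ∃ c : Cyc (d.1 + pkc d.2), Rd c = d ∧ (contc c).count 1 = 0 := by
  obtain ⟨c, h1, h2⟩ := exists_Rd (k := d.1 + pkc d.2) d.2 0 (by omega)
  exact ⟨c, h1, h2⟩

/-- **THE COUNT** -/
theorem card_outside (Q : Cyc k → Prop) (h : ∀ p q : Cyc k, Q p → Q q → Rd p = Rd q → p = q) :
    Nat.card {p : Cyc k // Q p} ≤ ∑ n ∈ range (k + 1), Cnt2.NB n := by
  classical
  choose c hc1 hc2 using exists_bare
  let f : {p : Cyc k // Q p} → Σ n : Fin (k + 1), {c : Cyc n.1 // (contc c).count 1 = 0} := fun p =>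
    ⟨⟨(Rd p.1).1 + pkc (Rd p.1).2, by have := Rd_le p.1; omega⟩, ⟨c (Rd p.1), hc2 (Rd p.1)⟩⟩
  let ψ : (Σ n : Fin (k + 1), {c : Cyc n.1 // (contc c).count 1 = 0}) → RD := fun s => Rd s.2.1
  have hinj : Function.Injective f := by
    intro p q e
    apply Subtype.ext
    apply h p.1 q.1 p.2 q.2
    have e1 : ψ (f p) = ψ (f q) := congrArg ψ e
    change Rd (c (Rd p.1)) = Rd (c (Rd q.1)) at e1
    rw [hc1, hc1] at e1
    exact e1
  have hle := Nat.card_le_card_of_injective f hinj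
  refine hle.trans ?_
  rw [Nat.card_sigma, Finset.sum_range]
  exact Finset.sum_le_sum fun n _ => Cnt2.card_cyc n.1

/-- **E pairs which leave out few T-cycles** -/
theorem exists_E_card (k : ℕ) : ∃ G : Set (Set (Cyc k)), (∀ F ∈ G, ∃ g, TyE F g) ∧
    (∀ F ∈ G, ∀ F' ∈ G, ∀ c, c ∈ F → c ∈ F' → F = F') ∧
    Nat.card {p : Cyc k // ∀ F ∈ G, p ∉ F} ≤ ∑ n ∈ range (k + 1), Cnt2.NB n := by
  obtain ⟨G, h1, h2, h3⟩ := exists_E k
  exact ⟨G, h1, h2, card_outside _ h3⟩

end Pool.OddHC
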