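import Pool.Agent.Work.MP_8f87b2_end.Mid
import Pool.Agent.Work.MP_8f87b2_end.Rem
import Pool.Agent.Work.MP_8f87b2_end.Inv3
import Pool.Agent.Work.MP_8f87b2_mid.Dis

/-!
# The E pairs of all families

`exists_E`: pairwise disjoint E pairs such that every family `Rd p = d` has at most one T-cycle outside the pairs.
-/

set_option autoImplicit false

namespace Pool.OddHC

open Finset Equiv BinaryTree Multiset Pool.OddHop Pool.Agent.Work.MP_8f87b2_co

variable {j k : ℕ}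

/-- every nonempty family has a member with all beads in one gap -/
theorem exists_isPile (p : Cyc k) : ∃ q : Cyc k, Rd q = Rd p ∧ IsPile q := by
  obtain ⟨j, u, e, w, hw, he, hwe, hR, h1, h2, h3, h4⟩ := exists_over p
  have hs : j + pkn u.1 + ∑ z : ZMod (2 * j + 1), (if z = 0 then e.sum else 0) = k := by
    rw [Finset.sum_ite_eq' univ (0 : ZMod (2 * j + 1)) (fun _ => e.sum), if_pos (mem_univ _)]
    omega
  refine ⟨cyc (phi u _ hs), ?_, j, u, 0, e.sum, phi u _ hs, rfl, rfl⟩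
  rw [hR]
  exact Rd_ins (lf_length _) rfl

/-- **one family**: an involution by hop pairs with at most one fixed point -/
theorem exists_inv (d : RD) : ∃ ι : Cyc k → Cyc k, (∀ p, Rd p = d → Rd (ι p) = d ∧ ι (ι p) = p ∧
    (ι p = p ∨ HopC p (ι p))) ∧ ∀ p q, Rd p = d → Rd q = d → ι p = p → ι q = q → p = q := by
  by_cases hd : ∃ p : Cyc k, Rd p = d
  · obtain ⟨p, hp⟩ := hd
    obtain ⟨lo, h1, h2⟩ := exists_isPile p
    obtain ⟨ι, hι⟩ := remOK_lo d lo (h1.trans hp) (fun h3 _ => h2.two h3)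
    refine ⟨ι, fun p hp => ⟨(hι p hp).1, (hι p hp).2.1, (hι p hp).2.2.1⟩, ?_⟩
    intro p q hp hq hp' hq'
    have e1 := ((hι p hp).2.2.2.1 hp').1
    have e2 := ((hι q hq).2.2.2.1 hq').1
    rw [e1, e2]
  · push_neg at hd
    exact ⟨id, fun p hp => absurd hp (hd p), fun p q hp => absurd hp (hd p)⟩

/-- **THE E PAIRS** -/
theorem exists_E (k : ℕ) : ∃ G : Set (Set (Cyc k)), (∀ F ∈ G, ∃ g, TyE F g) ∧
    (∀ F ∈ G, ∀ F' ∈ G, ∀ c, c ∈ F → c ∈ F' → F = F') ∧
    ∀ p q : Cyc k, (∀ F ∈ G, p ∉ F) → (∀ F ∈ G, q ∉ F) → Rd p = Rd q → p = q := by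
  classical
  choose ι h1 h2 using exists_inv (k := k)
  refine ⟨{F | ∃ p : Cyc k, ι (Rd p) p ≠ p ∧ F = {p, ι (Rd p) p}}, ?_, ?_, ?_⟩
  · rintro F ⟨p, hp, rfl⟩
    rcases (h1 _ p rfl).2.2 with h | h
    · exact absurd h hp
    · exact tyE_of_hop hp.symm h
  · rintro F ⟨p, hp, rfl⟩ F' ⟨q, hq, rfl⟩ c hc hc'
    have key : ∀ (p c : Cyc k), c ∈ ({p, ι (Rd p) p} : Set (Cyc k)) →
        ({p, ι (Rd p) p} : Set (Cyc k)) = {c, ι (Rd c) c} := by
      rintro p c (rfl | rfl)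
      · rfl
      · obtain ⟨a, b, -⟩ := h1 _ p rfl
        rw [a, b, Set.pair_comm]
    rw [key p c hc, key q c hc']
  · intro p q hp hq hR
    have key : ∀ p : Cyc k, (∀ F ∈ ({F | ∃ p : Cyc k, ι (Rd p) p ≠ p ∧ F = {p, ι (Rd p) p}} :
        Set (Set (Cyc k))), p ∉ F) → ι (Rd p) p = p := by
      intro p hp
      by_contra h
      exact hp _ ⟨p, h, rfl⟩ (Or.inl rfl)
    refine h2 (Rd p) p q rfl hR.symm (key p hp) ?_
    rw [hR]
    exact key q hq

/-- the words of two of the groups are different -/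
theorem E_disj {F F' : Set (Cyc k)} {g g' : DG k} (h : TyE F g) (h' : TyE F' g') (hd : ∀ c ∈ F, c ∉ F') :
    ∀ w ∈ g.B, w ∉ g'.B := dj_EE _ _ _ _ h h' hd

/-- the size of the family of a T-cycle -/
theorem Rd_le (p : Cyc k) : (Rd p).1 + pkc (Rd p).2 ≤ k := by
  have := Rd_size p
  omega

end Pool.OddHC
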